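import Mathlib
import Pool.Agent.SXY.Pairs

/-!
# Representations by primes in sexy-prime pairs: the least `q` is large for almost all `n`
-/

namespace Pool.Agent.Results.MP_42b45f_nt.LeastPrime

open Filter Topology Finset Pool.Agent.SXY

noncomputable section

/-- `c(n) = (3 - (-1)^n)/2` -/
def c (n : ℕ) : ℕ := if Even n then 1 else 2

/-- `(p, q)` is one of the pairs counted by `a(n)` -/
def Rep (n p q : ℕ) : Prop :=
  n = p + c n * q ∧ q < p ∧ p.Prime ∧ q.Prime ∧ (p - 6).Prime ∧ (q + 6).Prime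

/-- the integers `n ≤ X` with a pair `(p, q)` such that `q ≤ f n` -/
def early (f : ℕ → ℝ) (X : ℕ) : Set ℕ :=
  {n : ℕ | 1 ≤ n ∧ n ≤ X ∧ ∃ p q : ℕ, Rep n p q ∧ (q : ℝ) ≤ f n}

/-- `(log n)^2 (log log n)^2` -/
def g (n : ℕ) : ℝ := (Real.log n) ^ 2 * (Real.log (Real.log n)) ^ 2

theorem g_nonneg (n : ℕ) : 0 ≤ g n := by unfold g; positivity

theorem rep_ge {n p q : ℕ} (h : Rep n p q) : 8 ≤ n := by
  obtain ⟨h1, -, -, -, h5, -⟩ := h
  have := h5.two_le
  omega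

/-- the counting set with a natural bound -/
def E (X B : ℕ) : Set ℕ := {n : ℕ | 1 ≤ n ∧ n ≤ X ∧ ∃ p q : ℕ, Rep n p q ∧ q ≤ B}

theorem c_mem (n : ℕ) : c n ∈ ({1, 2} : Finset ℕ) := by
  unfold c
  split_ifs <;> simp

theorem mem_sexy {X q : ℕ} : q ∈ sexy X ↔ (1 ≤ q ∧ q ≤ X) ∧ q.Prime ∧ (q + 6).Prime := by
  unfold sexy
  rw [Finset.mem_filter, Finset.mem_Icc]

theorem rep_sexy {n p q X B : ℕ} (h : Rep n p q) (hX : n ≤ X) (hB : q ≤ B) :
    p - 6 ∈ sexy X ∧ q ∈ sexy B ∧ p = p - 6 + 6 := by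
  obtain ⟨h1, h2, h3, h4, h5, h6⟩ := h
  have h7 := h5.two_le
  have h8 : p - 6 + 6 = p := by omega
  refine ⟨?_, ?_, h8.symm⟩
  · rw [mem_sexy, h8]
    refine ⟨⟨by omega, by omega⟩, h5, h3⟩
  · rw [mem_sexy]
    exact ⟨⟨h4.one_lt.le, hB⟩, h4, h6⟩

theorem E_finite (X B : ℕ) : (E X B).Finite :=
  (Set.finite_Icc 1 X).subset (fun _ hn => ⟨hn.1, hn.2.1⟩)

theorem card_E_le (X B : ℕ) : (E X B).ncard ≤ 2 * (sexy X).card * (sexy B).card := by
  have hsub : E X B ⊆ ((((sexy X) ×ˢ (sexy B)) ×ˢ ({1, 2} : Finset ℕ)).image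
      (fun x => x.1.1 + 6 + x.2 * x.1.2) : Finset ℕ) := by
    intro n hn
    obtain ⟨h1, h2, p, q, h3, h4⟩ := hn
    obtain ⟨h5, h6, h7⟩ := rep_sexy h3 h2 h4
    rw [Finset.mem_coe, Finset.mem_image]
    refine ⟨((p - 6, q), c n), ?_, ?_⟩
    · rw [Finset.mem_product, Finset.mem_product]
      exact ⟨⟨h5, h6⟩, c_mem n⟩
    · dsimp only
      rw [← h7]
      exact h3.1.symm
  refine (Set.ncard_le_ncard hsub (Finset.finite_toSet _)).trans ?_
  rw [Set.ncard_coe_finset]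
  refine Finset.card_image_le.trans ?_
  rw [Finset.card_product, Finset.card_product]
  have : ({1, 2} : Finset ℕ).card = 2 := by decide
  rw [this]
  apply le_of_eq
  ring

/-- the number of prime pairs up to `X`, for all `X` -/
theorem sexy_le (X : ℕ) (hX : 2 ≤ X) :
    ((sexy X).card : ℝ) ≤ 36896 * X / (Real.log X) ^ 2 := by
  have hX0 : (0 : ℝ) < X := by exact_mod_cast (by omega : 0 < X)
  have hX1 : (1 : ℝ) < X := by exact_mod_cast (by omega : 1 < X)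
  have hL : 0 < Real.log X := Real.log_pos hX1
  rcases le_or_gt ((2 : ℝ) ^ 48) X with h | h
  · have hs : (2 : ℝ) ^ 24 ≤ √(X : ℝ) := by
      apply Real.le_sqrt_of_sq_le
      rw [← pow_mul]
      exact h
    have h1 := card_sexy_real X (√(X : ℝ)) hs
    have h2 : Real.log (√(X : ℝ)) = Real.log X / 2 := Real.log_sqrt hX0.le
    rw [h2] at h1
    -- `log X ≤ 4 X^(1/4)`
    have h3 : (Real.log X) ^ 2 ≤ 16 * √(X : ℝ) := by
      have h4 : Real.log (√(√(X : ℝ))) ≤ √(√(X : ℝ)) - 1 :=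
        Real.log_le_sub_one_of_pos (Real.sqrt_pos.2 (Real.sqrt_pos.2 hX0))
      rw [Real.log_sqrt (Real.sqrt_nonneg _), h2] at h4
      have h5 : Real.log X ≤ 4 * √(√(X : ℝ)) := by linarith
      have h6 : √(√(X : ℝ)) ^ 2 = √(X : ℝ) := Real.sq_sqrt (Real.sqrt_nonneg _)
      calc (Real.log X) ^ 2 ≤ (4 * √(√(X : ℝ))) ^ 2 := pow_le_pow_left₀ hL.le h5 2
        _ = 16 * √(√(X : ℝ)) ^ 2 := by ring
        _ = 16 * √(X : ℝ) := by rw [h6]
    have h7 : 2 * √(X : ℝ) ≤ 32 * X / (Real.log X) ^ 2 := by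
      rw [le_div_iff₀ (by positivity)]
      have h8 : √(X : ℝ) * √(X : ℝ) = X := Real.mul_self_sqrt hX0.le
      have h9 : 0 ≤ √(X : ℝ) := Real.sqrt_nonneg _
      nlinarith
    have h10 : 9216 * (X : ℝ) / (Real.log X / 2) ^ 2 = 36864 * X / (Real.log X) ^ 2 := by
      field_simp
      ring
    rw [h10] at h1
    have h11 : 36896 * (X : ℝ) / (Real.log X) ^ 2 =
        36864 * X / (Real.log X) ^ 2 + 32 * X / (Real.log X) ^ 2 := by
      rw [← add_div]
      ring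
    rw [h11]
    linarith
  · have h1 : ((sexy X).card : ℝ) ≤ X := by
      have : (sexy X).card ≤ X := by
        unfold sexy
        refine (Finset.card_filter_le _ _).trans ?_
        rw [Nat.card_Icc, Nat.add_sub_cancel]
      exact_mod_cast this
    refine h1.trans ?_
    rw [le_div_iff₀ (by positivity)]
    have h2 : Real.log X ≤ 48 := by
      have h3 : Real.log X ≤ Real.log ((2 : ℝ) ^ 48) := Real.log_le_log hX0 h.le
      rw [Real.log_pow] at h3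
      have h4 := Real.log_two_lt_d9
      push_cast at h3
      nlinarith
    have h5 : (Real.log X) ^ 2 ≤ 48 ^ 2 := pow_le_pow_left₀ hL.le h2 2
    nlinarith

theorem g_mono {n X : ℕ} (hn : 8 ≤ n) (h : n ≤ X) : g n ≤ g X := by
  unfold g
  have hn0 : (8 : ℝ) ≤ n := by exact_mod_cast hn
  have hnX : (n : ℝ) ≤ X := by exact_mod_cast h
  have h1 : 1 ≤ Real.log n := by
    rw [Real.le_log_iff_exp_le (by linarith)]
    have := Real.exp_one_lt_d9
    linarith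
  have h2 : Real.log n ≤ Real.log X := Real.log_le_log (by linarith) hnX
  have h3 : 0 ≤ Real.log (Real.log n) := Real.log_nonneg h1
  have h4 : Real.log (Real.log n) ≤ Real.log (Real.log X) := Real.log_le_log (by linarith) h2
  gcongr

theorem early_sub {κ : ℝ} (hκ : 0 ≤ κ) (X : ℕ) :
    early (fun n => κ * g n) X ⊆ E X ⌊κ * g X⌋₊ := by
  intro n hn
  obtain ⟨h1, h2, p, q, h3, h4⟩ := hn
  refine ⟨h1, h2, p, q, h3, ?_⟩
  apply Nat.le_floor
  refine h4.trans ?_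
  exact mul_le_mul_of_nonneg_left (g_mono (rep_ge h3) h2) hκ

theorem early_finite (f : ℕ → ℝ) (X : ℕ) : (early f X).Finite :=
  (Set.finite_Icc 1 X).subset (fun _ hn => ⟨hn.1, hn.2.1⟩)

/-- the bound for one `X` -/
theorem early_card {κ : ℝ} (hκ : 0 ≤ κ) (X : ℕ) (hX : 2 ≤ X) (hL : (2 : ℝ) ^ 24 ≤ Real.log X) :
    ((early (fun n => κ * g n) X).ncard : ℝ) ≤
      2 * (36896 * X) * (9216 * κ + 2 / Real.log X) := by
  have h1 : (early (fun n => κ * g n) X).ncard ≤ (E X ⌊κ * g X⌋₊).ncard :=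
    Set.ncard_le_ncard (early_sub hκ X) (E_finite _ _)
  have h2 := h1.trans (card_E_le X ⌊κ * g X⌋₊)
  have h3 : ((early (fun n => κ * g n) X).ncard : ℝ) ≤
      2 * ((sexy X).card : ℝ) * ((sexy ⌊κ * g X⌋₊).card : ℝ) := by exact_mod_cast h2
  refine h3.trans ?_
  have h4 := sexy_le X hX
  have h5 := card_sexy_real ⌊κ * g X⌋₊ (Real.log X) hL
  have hL0 : 0 < Real.log X := lt_of_lt_of_le (by positivity) hL
  have hLL : 0 < Real.log (Real.log X) := by
    apply Real.log_pos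
    refine lt_of_lt_of_le ?_ hL
    norm_num
  have h6 : ((⌊κ * g X⌋₊ : ℕ) : ℝ) ≤ κ * g X := Nat.floor_le (mul_nonneg hκ (g_nonneg X))
  have h7 : 9216 * ((⌊κ * g X⌋₊ : ℕ) : ℝ) / (Real.log (Real.log X)) ^ 2 ≤
      9216 * κ * (Real.log X) ^ 2 := by
    rw [div_le_iff₀ (by positivity)]
    unfold g at h6
    calc 9216 * ((⌊κ * g X⌋₊ : ℕ) : ℝ) ≤
        9216 * (κ * ((Real.log X) ^ 2 * (Real.log (Real.log X)) ^ 2)) := by
          unfold g
          linarith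
      _ = _ := by ring
  have h8 : ((sexy ⌊κ * g X⌋₊).card : ℝ) ≤ (Real.log X) ^ 2 * (9216 * κ + 2 / Real.log X) := by
    have : (Real.log X) ^ 2 * (9216 * κ + 2 / Real.log X) =
        9216 * κ * (Real.log X) ^ 2 + 2 * Real.log X := by
      field_simp
    rw [this]
    linarith
  calc 2 * ((sexy X).card : ℝ) * ((sexy ⌊κ * g X⌋₊).card : ℝ)
      ≤ 2 * (36896 * X / (Real.log X) ^ 2) *
        ((Real.log X) ^ 2 * (9216 * κ + 2 / Real.log X)) := by
        have h9 : 0 ≤ 2 * (36896 * (X : ℝ) / (Real.log X) ^ 2) := by positivity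
        gcongr
    _ = _ := by
        field_simp

/-- the bound for all large `X` -/
theorem almost_all (ε : ℝ) (hε : 0 < ε) : ∃ X₀ : ℕ, ∀ X : ℕ, X₀ ≤ X →
    ((early (fun n => 1 / 10 ^ 10 * ε * g n) X).ncard : ℝ) ≤ ε * X := by
  have h1 : Tendsto (fun X : ℕ => Real.log X) atTop atTop :=
    Real.tendsto_log_atTop.comp tendsto_natCast_atTop_atTop
  have h2 := (h1.eventually_ge_atTop ((2 : ℝ) ^ 24)).and
    ((h1.eventually_ge_atTop (10 ^ 6 / ε)).and (eventually_ge_atTop 2))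
  obtain ⟨X₀, hX₀⟩ := eventually_atTop.1 h2
  refine ⟨X₀, fun X hX => ?_⟩
  obtain ⟨h3, h4, h5⟩ := hX₀ X hX
  have h6 := early_card (κ := 1 / 10 ^ 10 * ε) (by positivity) X h5 h3
  refine h6.trans ?_
  have hL0 : 0 < Real.log X := lt_of_lt_of_le (by positivity) h3
  have h7 : 2 / Real.log X ≤ 2 * ε / 10 ^ 6 := by
    rw [div_le_div_iff₀ hL0 (by positivity)]
    rw [div_le_iff₀ hε] at h4
    linarith
  have hX0 : (0 : ℝ) ≤ X := Nat.cast_nonneg X
  calc 2 * (36896 * (X : ℝ)) * (9216 * (1 / 10 ^ 10 * ε) + 2 / Real.log X)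
      ≤ 2 * (36896 * (X : ℝ)) * (9216 * (1 / 10 ^ 10 * ε) + 2 * ε / 10 ^ 6) := by gcongr
    _ = (2 * 36896 * (9216 / 10 ^ 10 + 2 / 10 ^ 6)) * (ε * X) := by ring
    _ ≤ 1 * (ε * X) := by
        apply mul_le_mul_of_nonneg_right _ (by positivity)
        norm_num
    _ = ε * X := one_mul _

/-- For every `ε > 0` and all large `X`, all but at most `ε X` of the integers `n ≤ X` have the
property that every pair `(p, q)` counted by `a(n)` has
`q > 10⁻¹⁰ ε (log n)² (log log n)²`. -/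
theorem result (ε : ℝ) (hε : 0 < ε) : ∃ X₀ : ℕ, ∀ X : ℕ, X₀ ≤ X →
    (Set.ncard {n : ℕ | 1 ≤ n ∧ n ≤ X ∧ ∃ p q : ℕ, Rep n p q ∧
      (q : ℝ) ≤ 1 / 10 ^ 10 * ε * ((Real.log n) ^ 2 * (Real.log (Real.log n)) ^ 2)} : ℝ) ≤ ε * X :=
  almost_all ε hε

end

end Pool.Agent.Results.MP_42b45f_nt.LeastPrime
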